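import Pool.Agent.TH537.EQ.Defs

/-!
# Duality of cones
-/

set_option autoImplicit false

open MeasureTheory Set Filter
open scoped ENNReal Pointwise Matrix Topology

namespace Pool.Agent.TH388.EQ

open Pool.Agent.TH537.EQ

variable {N : ℕ} {C : Set (Fin N → ℝ)} {e c : Fin N → ℝ}

/-- every continuous linear functional is a dot product -/
lemma exists_dot (g : (Fin N → ℝ) →L[ℝ] ℝ) : ∃ y : Fin N → ℝ, ∀ x, g x = x ⬝ᵥ y := by
  refine ⟨fun i => g (Pi.single i 1), fun x => ?_⟩
  conv_lhs => rw [← Finset.univ_sum_single x]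
  rw [map_sum, dotProduct]
  refine Finset.sum_congr rfl fun i _ => ?_
  have : (Pi.single i (x i) : Fin N → ℝ) = x i • Pi.single i (1 : ℝ) := by
    rw [← Pi.single_smul, smul_eq_mul, mul_one]
  rw [this, map_smul, smul_eq_mul]

lemma dot_cont_left (y : Fin N → ℝ) : Continuous fun x : Fin N → ℝ => x ⬝ᵥ y := by
  unfold dotProduct
  fun_prop

lemma dot_cont_right (x : Fin N → ℝ) : Continuous fun y : Fin N → ℝ => x ⬝ᵥ y := by
  unfold dotProduct
  fun_prop

lemma dot_cont : Continuous fun p : (Fin N → ℝ) × (Fin N → ℝ) => p.1 ⬝ᵥ p.2 := by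
  unfold dotProduct
  fun_prop

lemma zero_mem_CN (hC : CN C) : (0 : Fin N → ℝ) ∈ C := by
  obtain ⟨x, hx⟩ := hC.int
  have := hC.smul 0 le_rfl x (interior_subset hx)
  rwa [zero_smul] at this

lemma dl_closed (C : Set (Fin N → ℝ)) : IsClosed (dl C) := by
  have : dl C = ⋂ x ∈ C, {y | 0 ≤ x ⬝ᵥ y} := by
    ext y
    simp [dl]
  rw [this]
  exact isClosed_biInter fun x _ => isClosed_le continuous_const (dot_cont_right x)

lemma dl_convex (C : Set (Fin N → ℝ)) : Convex ℝ (dl C) := by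
  intro y hy z hz a b ha hb _ x hx
  rw [dotProduct_add, dotProduct_smul, dotProduct_smul, smul_eq_mul, smul_eq_mul]
  exact add_nonneg (mul_nonneg ha (hy x hx)) (mul_nonneg hb (hz x hx))

lemma dl_smul (C : Set (Fin N → ℝ)) (t : ℝ) (ht : 0 ≤ t) (y : Fin N → ℝ) (hy : y ∈ dl C) :
    t • y ∈ dl C := by
  intro x hx
  rw [dotProduct_smul, smul_eq_mul]
  exact mul_nonneg ht (hy x hx)

lemma Pos_dl (hc : c ∈ interior C) : Pos (dl C) c := by
  intro y hy hy0
  have hyy : 0 < y ⬝ᵥ y := by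
    have h1 : 0 ≤ y ⬝ᵥ y := Finset.sum_nonneg fun i _ => mul_self_nonneg _
    refine lt_of_le_of_ne h1 fun h => hy0 ?_
    exact dotProduct_self_eq_zero.1 h.symm
  have hlim : Tendsto (fun t : ℝ => c - t • y) (𝓝 0) (𝓝 c) := by
    have : Continuous fun t : ℝ => c - t • y := by fun_prop
    have h := this.tendsto 0
    simpa using h
  have hev : ∀ᶠ t : ℝ in 𝓝 0, c - t • y ∈ C := hlim (mem_interior_iff_mem_nhds.1 hc)
  have hev2 : ∀ᶠ t : ℝ in 𝓝[>] 0, c - t • y ∈ C := hev.filter_mono nhdsWithin_le_nhds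
  obtain ⟨t, ht, ht0⟩ := (hev2.and self_mem_nhdsWithin).exists
  have ht0' : 0 < t := ht0
  have h1 := hy _ ht
  rw [sub_dotProduct, smul_dotProduct, smul_eq_mul, dotProduct_comm] at h1
  have := mul_pos ht0' hyy
  linarith

lemma mem_int_dl (hC : CN C) (he : Pos C e) : e ∈ interior (dl C) := by
  rw [mem_interior_iff_mem_nhds]
  have hS : IsCompact (C ∩ Metric.sphere 0 1) :=
    (isCompact_sphere (0 : Fin N → ℝ) 1).inter_left hC.closed
  have hev : ∀ᶠ y in 𝓝 e, ∀ x ∈ C ∩ Metric.sphere 0 1, 0 < x ⬝ᵥ y := by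
    refine hS.eventually_forall_of_forall_eventually fun x hx => ?_
    have hx0 : x ≠ 0 := by
      rintro rfl
      have := hx.2
      rw [mem_sphere_zero_iff_norm, norm_zero] at this
      exact one_ne_zero this.symm
    have hcont : Continuous fun p : (Fin N → ℝ) × (Fin N → ℝ) => p.2 ⬝ᵥ p.1 :=
      dot_cont.comp continuous_swap
    exact hcont.continuousAt.eventually (lt_mem_nhds (he x hx.1 hx0))
  filter_upwards [hev] with y hy x hx
  by_cases hx0 : x = 0
  · rw [hx0, zero_dotProduct]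
  · have hn : 0 < ‖x‖ := norm_pos_iff.2 hx0
    have h1 : ‖x‖⁻¹ • x ∈ C ∩ Metric.sphere 0 1 := by
      refine ⟨hC.smul _ (by positivity) x hx, ?_⟩
      rw [mem_sphere_zero_iff_norm, norm_smul, norm_inv, norm_norm, inv_mul_cancel₀ hn.ne']
    have h2 := hy _ h1
    rw [smul_dotProduct, smul_eq_mul] at h2
    exact ((mul_pos_iff_of_pos_left (by positivity)).1 h2).le

lemma dl_dl (hC : CN C) : dl (dl C) = C := by
  apply Subset.antisymm
  · intro x hx
    by_contra hcon
    obtain ⟨g, s, hg1, hg2⟩ := geometric_hahn_banach_closed_point hC.convex hC.closed hcon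
    have hs : 0 < s := by
      have := hg1 0 (zero_mem_CN hC)
      rwa [map_zero] at this
    have hg : ∀ z ∈ C, g z ≤ 0 := by
      intro z hz
      by_contra hlt
      push Not at hlt
      have h1 := hg1 _ (hC.smul (s / g z) (by positivity) z hz)
      rw [map_smul, smul_eq_mul, div_mul_cancel₀ _ hlt.ne'] at h1
      exact lt_irrefl _ h1
    obtain ⟨y, hy⟩ := exists_dot g
    have h1 : -y ∈ dl C := by
      intro z hz
      rw [dotProduct_neg, ← hy]
      have := hg z hz
      linarith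
    have h2 := hx _ h1
    rw [neg_dotProduct, dotProduct_comm, ← hy] at h2
    linarith
  · intro x hx y hy
    rw [dotProduct_comm]
    exact hy x hx

/-- **(DU)** duality -/
theorem t_DU : S_DU := by
  intro N C e c hC he hc
  have h := mem_int_dl hC he
  exact ⟨⟨dl_closed C, dl_convex C, dl_smul C, ⟨e, h⟩⟩, Pos_dl hc, h, dl_dl hC⟩

end Pool.Agent.TH388.EQ
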