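import Pool.Agent.TH388.EQ.DU
import Pool.Agent.TH388.E2F

/-!
# Cone form of the inequality E2
-/

set_option autoImplicit false

open MeasureTheory Set Filter
open scoped ENNReal Pointwise Matrix Topology

namespace Pool.Agent.TH388.EQ

open Pool.Agent.TH537.EQ

variable {N : ℕ} {C : Set (Fin N → ℝ)} {e c : Fin N → ℝ}

/-- the truncated body `(C - c) ∩ {⟨x, e⟩ ≤ M}` -/
def KM (C : Set (Fin N → ℝ)) (e c : Fin N → ℝ) (M : ℝ) : Set (Fin N → ℝ) :=
  {x | x + c ∈ C ∧ x ⬝ᵥ e ≤ M}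

/-- truncated cones are bounded -/
lemma T_bdd (hC : CN C) (he : Pos C e) (M : ℝ) :
    Bornology.IsBounded {x | x ∈ C ∧ x ⬝ᵥ e ≤ M} := by
  have hS : IsCompact (C ∩ Metric.sphere 0 1) :=
    (isCompact_sphere (0 : Fin N → ℝ) 1).inter_left hC.closed
  have hpos : ∀ x ∈ C ∩ Metric.sphere (0 : Fin N → ℝ) 1, 0 < x ⬝ᵥ e := by
    intro x hx
    refine he x hx.1 ?_
    rintro rfl
    have := hx.2
    rw [mem_sphere_zero_iff_norm, norm_zero] at this
    exact one_ne_zero this.symm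
  obtain ⟨m, hm, hmS⟩ : ∃ m : ℝ, 0 < m ∧ ∀ x ∈ C ∩ Metric.sphere (0 : Fin N → ℝ) 1, m ≤ x ⬝ᵥ e := by
    rcases (C ∩ Metric.sphere (0 : Fin N → ℝ) 1).eq_empty_or_nonempty with h | h
    · exact ⟨1, one_pos, fun x hx => by rw [h] at hx; exact absurd hx (notMem_empty x)⟩
    · obtain ⟨x0, hx0, hmin⟩ := hS.exists_isMinOn h (dot_cont_left e).continuousOn
      exact ⟨x0 ⬝ᵥ e, hpos x0 hx0, fun x hx => hmin hx⟩
  refine (Metric.isBounded_closedBall (x := (0 : Fin N → ℝ)) (r := M / m)).subset ?_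
  intro x hx
  rw [mem_closedBall_zero_iff]
  by_cases hx0 : x = 0
  · have h1 := hx.2
    rw [hx0, zero_dotProduct] at h1
    rw [hx0, norm_zero]
    positivity
  · have hn : 0 < ‖x‖ := norm_pos_iff.2 hx0
    have h1 : ‖x‖⁻¹ • x ∈ C ∩ Metric.sphere 0 1 := by
      refine ⟨hC.smul _ (by positivity) x hx.1, ?_⟩
      rw [mem_sphere_zero_iff_norm, norm_smul, norm_inv, norm_norm, inv_mul_cancel₀ hn.ne']
    have h2 := hmS _ h1
    rw [smul_dotProduct, smul_eq_mul, le_inv_mul_iff₀ hn] at h2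
    rw [le_div_iff₀ hm]
    exact h2.trans hx.2

lemma KM_NB (hC : CN C) (he : Pos C e) (hc : c ∈ interior C) {M : ℝ} (hM : 0 < M) :
    H801NS.NB (KM C e c M) := by
  have hcont : Continuous fun x : Fin N → ℝ => x + c := by fun_prop
  have hcl : IsClosed (KM C e c M) :=
    (hC.closed.preimage hcont).inter (isClosed_le (dot_cont_left e) continuous_const)
  have hbd : Bornology.IsBounded (KM C e c M) := by
    have h1 := T_bdd hC he (M + c ⬝ᵥ e)
    have h2 : KM C e c M ⊆ (fun x => x - c) '' {x | x ∈ C ∧ x ⬝ᵥ e ≤ M + c ⬝ᵥ e} := by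
      intro x hx
      refine ⟨x + c, ⟨hx.1, ?_⟩, by simp⟩
      rw [add_dotProduct]
      have := hx.2
      linarith
    refine Bornology.IsBounded.subset ?_ h2
    obtain ⟨R, hR⟩ := h1.subset_closedBall 0
    refine (Metric.isBounded_closedBall (x := (0 : Fin N → ℝ)) (r := R + ‖c‖)).subset ?_
    rintro _ ⟨x, hx, rfl⟩
    have h3 := hR hx
    rw [mem_closedBall_zero_iff] at h3 ⊢
    exact (norm_sub_le x c).trans (by linarith)
  refine ⟨Metric.isCompact_of_isClosed_isBounded hcl hbd, ?_, ?_⟩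
  · intro x hx y hy a b ha hb hab
    constructor
    · have h1 := hC.convex hx.1 hy.1 ha hb hab
      have h2 : a • x + b • y + c = a • (x + c) + b • (y + c) := by
        rw [smul_add, smul_add]
        nth_rewrite 1 [← one_smul ℝ c]
        rw [← hab, add_smul]
        abel
      rw [h2]
      exact h1
    · rw [add_dotProduct, smul_dotProduct, smul_dotProduct, smul_eq_mul, smul_eq_mul]
      calc a * (x ⬝ᵥ e) + b * (y ⬝ᵥ e) ≤ a * M + b * M :=
            add_le_add (mul_le_mul_of_nonneg_left hx.2 ha) (mul_le_mul_of_nonneg_left hy.2 hb)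
        _ = M := by rw [← add_mul, hab, one_mul]
  · rw [mem_interior_iff_mem_nhds]
    refine inter_mem ?_ ?_
    · refine hcont.continuousAt.preimage_mem_nhds ?_
      rw [zero_add]
      exact mem_interior_iff_mem_nhds.1 hc
    · have : ∀ᶠ x : Fin N → ℝ in 𝓝 0, x ⬝ᵥ e < M := by
        refine (dot_cont_left e).continuousAt.eventually (gt_mem_nhds ?_)
        show (0 : Fin N → ℝ) ⬝ᵥ e < M
        rw [zero_dotProduct]
        exact hM
      filter_upwards [this] with x hx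
      exact hx.le

/-- membership in `C` through the truncated dual cone -/
lemma mem_of_T (hC : CN C) (hc : c ∈ interior C) {x : Fin N → ℝ}
    (h : ∀ z ∈ T (dl C) c, -1 ≤ x ⬝ᵥ z) : x + c ∈ C := by
  rw [← dl_dl hC]
  intro y hy
  by_cases hy0 : y = 0
  · rw [hy0, zero_dotProduct]
  · have h1 := Pos_dl hc y hy hy0
    have h2 : (y ⬝ᵥ c)⁻¹ • y ∈ T (dl C) c := by
      refine ⟨dl_smul C _ (by positivity) y hy, ?_⟩
      rw [smul_dotProduct, smul_eq_mul, inv_mul_cancel₀ h1.ne']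
    have h3 := h _ h2
    rw [dotProduct_smul, smul_eq_mul, le_inv_mul_iff₀ h1] at h3
    rw [dotProduct_add, dotProduct_comm y x]
    linarith

/-- the point `t e` of the truncated dual cone -/
lemma e_mem_T (hC : CN C) (he : Pos C e) (hc : c ∈ interior C) :
    (c ⬝ᵥ e + 1)⁻¹ • e ∈ T (dl C) c ∧ 0 < c ⬝ᵥ e + 1 := by
  have h0 : 0 ≤ c ⬝ᵥ e := interior_subset (mem_int_dl hC he) c (interior_subset hc)
  refine ⟨⟨dl_smul C _ (by positivity) e (interior_subset (mem_int_dl hC he)), ?_⟩, by linarith⟩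
  rw [smul_dotProduct, smul_eq_mul, dotProduct_comm e c, inv_mul_le_iff₀ (by linarith)]
  linarith

lemma zero_mem_T (C : Set (Fin N → ℝ)) (c : Fin N → ℝ) : (0 : Fin N → ℝ) ∈ T (dl C) c := by
  refine ⟨fun x _ => ?_, ?_⟩
  · rw [dotProduct_zero]
  · rw [zero_dotProduct]
    exact zero_le_one

/-- `p • pol K ⊆ -conv(p T ∪ -q T)` for `p`, `q` positive and `M` large -/
lemma pol_sub (hC : CN C) (he : Pos C e) (hc : c ∈ interior C) {p q M : ℝ} (hp : 0 < p)
    (hq : 0 < q) (hM : p * (c ⬝ᵥ e + 1) ≤ q * M) (H : Set (Fin N → ℝ)) (hHc : Convex ℝ H)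
    (hHcl : IsClosed H) (h1 : ∀ z ∈ T (dl C) c, (-p) • z ∈ H) (h2 : ∀ z ∈ T (dl C) c, q • z ∈ H) :
    ∀ y ∈ H801NS.pol (KM C e c M), p • y ∈ H := by
  intro y hy
  by_contra hcon
  obtain ⟨g, s, hg1, hg2⟩ := geometric_hahn_banach_closed_point hHc hHcl hcon
  have hs : 0 < s := by
    have := hg1 _ (h2 0 (zero_mem_T C c))
    rwa [smul_zero, map_zero] at this
  obtain ⟨x, hx⟩ := exists_dot g
  rw [hx] at hg2
  have e1 : ∀ z ∈ T (dl C) c, -1 ≤ ((p / s) • x) ⬝ᵥ z := by
    intro z hz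
    have h3 := (hg1 _ (h1 z hz)).le
    rw [hx, smul_dotProduct, smul_eq_mul] at h3
    rw [smul_dotProduct, smul_eq_mul, dotProduct_comm x z]
    have h4 : p / s * (z ⬝ᵥ x) = p * (z ⬝ᵥ x) / s := by ring
    rw [h4, le_div_iff₀ hs]
    linarith
  have e2 : ((p / s) • x) ⬝ᵥ e ≤ M := by
    obtain ⟨h3, h4⟩ := e_mem_T hC he hc
    have h5 := (hg1 _ (h2 _ h3)).le
    rw [hx, smul_dotProduct, smul_dotProduct, smul_eq_mul, smul_eq_mul] at h5
    rw [smul_dotProduct, smul_eq_mul, dotProduct_comm x e]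
    have h6 : q * (e ⬝ᵥ x) ≤ s * (c ⬝ᵥ e + 1) := by
      have : q * ((c ⬝ᵥ e + 1)⁻¹ * (e ⬝ᵥ x)) = q * (e ⬝ᵥ x) / (c ⬝ᵥ e + 1) := by
        field_simp
      rw [this, div_le_iff₀ h4] at h5
      exact h5
    have h7 : p / s * (e ⬝ᵥ x) = p * (e ⬝ᵥ x) / s := by ring
    rw [h7, div_le_iff₀ hs]
    have h8 : q * (p * (e ⬝ᵥ x)) ≤ q * (M * s) := by
      calc q * (p * (e ⬝ᵥ x)) = p * (q * (e ⬝ᵥ x)) := by ring
        _ ≤ p * (s * (c ⬝ᵥ e + 1)) := mul_le_mul_of_nonneg_left h6 hp.le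
        _ = s * (p * (c ⬝ᵥ e + 1)) := by ring
        _ ≤ s * (q * M) := mul_le_mul_of_nonneg_left hM hs.le
        _ = q * (M * s) := by ring
    exact le_of_mul_le_mul_left h8 hq
  have h3 : (p / s) • x ∈ KM C e c M := ⟨mem_of_T hC hc e1, e2⟩
  have h4 := hy _ h3
  rw [smul_dotProduct, smul_eq_mul] at h4
  rw [smul_dotProduct, smul_eq_mul, dotProduct_comm y x] at hg2
  have h5 : p / s * (x ⬝ᵥ y) = p * (x ⬝ᵥ y) / s := by ring
  rw [h5, div_le_iff₀ hs] at h4
  linarith

/-- **(E2C)** -/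
theorem t_E2C : S_E2C := by
  intro N C e c u hC he hc hu0 hu1
  have hu1' : 0 < 1 - u := by linarith
  obtain ⟨-, hpos⟩ := e_mem_T hC he hc
  set M : ℝ := (c ⬝ᵥ e + 1) / (u * (1 - u)) with hM
  have hM0 : 0 < M := by positivity
  have hMa : (1 - u) * (c ⬝ᵥ e + 1) ≤ u * M := by
    have : u * M = (c ⬝ᵥ e + 1) / (1 - u) := by
      rw [hM]
      field_simp
    rw [this, le_div_iff₀ hu1']
    have h1 : (1 - u) * (1 - u) ≤ 1 := by nlinarith
    nlinarith [mul_le_mul_of_nonneg_right h1 hpos.le]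
  have hMb : u * (c ⬝ᵥ e + 1) ≤ (1 - u) * M := by
    have : (1 - u) * M = (c ⬝ᵥ e + 1) / u := by
      rw [hM]
      field_simp
    rw [this, le_div_iff₀ hu0]
    have h1 : u * u ≤ 1 := by nlinarith
    nlinarith [mul_le_mul_of_nonneg_right h1 hpos.le]
  have hNB := KM_NB hC he hc hM0
  have key := E2.e2F hNB u
  -- the bounded set
  have hTb : Bornology.IsBounded (T (dl C) c) :=
    T_bdd ⟨dl_closed C, dl_convex C, dl_smul C, ⟨e, mem_int_dl hC he⟩⟩ (Pos_dl hc) 1
  have hHb : Bornology.IsBounded (HT (dl C) c u) :=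
    isBounded_convexHull.2 ((hTb.smul₀ _).union (hTb.smul₀ _))
  have hHc : Convex ℝ (HT (dl C) c u) := convex_convexHull ℝ _
  set H : Set (Fin N → ℝ) := -closure (HT (dl C) c u) with hH
  have hHcl : IsClosed H := isClosed_closure.neg
  have hHconv : Convex ℝ H := hHc.closure.neg
  have m1 : ∀ z ∈ T (dl C) c, (-(1 - u)) • z ∈ H := by
    intro z hz
    rw [hH, Set.mem_neg]
    refine subset_closure (subset_convexHull ℝ _ (Or.inl ⟨z, hz, ?_⟩))
    show (1 - u) • z = -(-(1 - u) • z)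
    rw [neg_smul, neg_neg]
  have m2 : ∀ z ∈ T (dl C) c, u • z ∈ H := by
    intro z hz
    rw [hH, Set.mem_neg]
    refine subset_closure (subset_convexHull ℝ _ (Or.inr ⟨z, hz, ?_⟩))
    simp
  have m1' : ∀ z ∈ T (dl C) c, (1 - u) • z ∈ -H := by
    intro z hz
    rw [Set.mem_neg, ← neg_smul]
    exact m1 z hz
  have m2' : ∀ z ∈ T (dl C) c, (-u) • z ∈ -H := by
    intro z hz
    rw [Set.mem_neg]
    have := m2 z hz
    simpa using this
  have s1 := pol_sub hC he hc hu1' hu0 hMa H hHconv hHcl m1 m2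
  have s2 := pol_sub hC he hc hu0 hu1' hMb (-H) hHconv.neg hHcl.neg m2' m1'
  have hsub : convexHull ℝ ((1 - u) • H801NS.pol (KM C e c M) ∪
      (-u) • H801NS.pol (KM C e c M)) ⊆ H := by
    refine convexHull_min ?_ hHconv
    rintro _ (⟨y, hy, rfl⟩ | ⟨y, hy, rfl⟩)
    · exact s1 y hy
    · have := s2 y hy
      rw [Set.mem_neg] at this
      show (-u) • y ∈ H
      rwa [neg_smul]
  have hHvol : volume.real H = volume.real (HT (dl C) c u) := by
    have h1 : volume H = volume (closure (HT (dl C) c u)) := Measure.measure_neg _ _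
    have h2 : volume (closure (HT (dl C) c u)) = volume (HT (dl C) c u) :=
      measure_congr (closure_ae_eq_of_null_frontier (hHc.addHaar_frontier volume))
    rw [measureReal_def, measureReal_def, h1, h2]
  have hHfin : volume H ≠ ⊤ := by
    rw [hH, Measure.measure_neg]
    exact hHb.closure.measure_lt_top.ne
  have hA : volume.real (convexHull ℝ ((1 - u) • H801NS.pol (KM C e c M) ∪
      (-u) • H801NS.pol (KM C e c M))) ≤ volume.real (HT (dl C) c u) := by
    rw [← hHvol]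
    exact measureReal_mono hsub hHfin
  -- the intersection
  have hOIb : Bornology.IsBounded (OI C c) := by
    refine (T_bdd hC he (c ⬝ᵥ e)).subset fun x hx => ⟨hx.1, ?_⟩
    have := interior_subset (mem_int_dl hC he) _ hx.2
    rw [sub_dotProduct] at this
    linarith
  have hB : volume.real (KM C e c M ∩ -KM C e c M) ≤ 2 ^ N * volume.real (OI C c) := by
    have h1 : KM C e c M ∩ -KM C e c M ⊆ (fun x => -c + x) '' ((2 : ℝ) • OI C c) := by
      rintro x ⟨hx1, hx2⟩
      refine ⟨x + c, ?_, by simp⟩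
      have e1 : x + c ∈ C := hx1.1
      have e2 : -x + c ∈ C := hx2.1
      refine ⟨(1 / 2 : ℝ) • (x + c), ⟨hC.smul _ (by norm_num) _ e1, ?_⟩, ?_⟩
      · have : c - (1 / 2 : ℝ) • (x + c) = (1 / 2 : ℝ) • (-x + c) := by
          ext i
          simp
          ring
        rw [this]
        exact hC.smul _ (by norm_num) _ e2
      · show (2 : ℝ) • (1 / 2 : ℝ) • (x + c) = x + c
        rw [smul_smul]
        norm_num
    have h2 : volume ((fun x => -c + x) '' ((2 : ℝ) • OI C c)) =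
        ENNReal.ofReal (2 ^ N) * volume (OI C c) := by
      rw [show (fun x => -c + x) '' ((2 : ℝ) • OI C c) = (-c) +ᵥ ((2 : ℝ) • OI C c) from rfl,
        measure_vadd, Measure.addHaar_smul]
      simp
    have h3 : volume (OI C c) ≠ ⊤ := hOIb.measure_lt_top.ne
    have h4 : volume.real ((fun x => -c + x) '' ((2 : ℝ) • OI C c)) =
        2 ^ N * volume.real (OI C c) := by
      rw [measureReal_def, h2, ENNReal.toReal_mul, ENNReal.toReal_ofReal (by positivity),
        ← measureReal_def]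
    rw [← h4]
    exact measureReal_mono h1 (by rw [h2]; exact ENNReal.mul_ne_top ENNReal.ofReal_ne_top h3)
  have h5 : (2 : ℝ) ^ N ≤ N.factorial * ((2 ^ N * volume.real (OI C c)) *
      volume.real (HT (dl C) c u)) :=
    key.trans (mul_le_mul_of_nonneg_left (mul_le_mul hB hA measureReal_nonneg
      (by positivity)) (by positivity))
  have h6 : (2 : ℝ) ^ N * 1 ≤ 2 ^ N * ((N.factorial : ℝ) * (volume.real (OI C c) *
      volume.real (HT (dl C) c u))) := by
    calc (2 : ℝ) ^ N * 1 ≤ N.factorial * ((2 ^ N * volume.real (OI C c)) *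
          volume.real (HT (dl C) c u)) := by rw [mul_one]; exact h5
      _ = _ := by ring
  exact le_of_mul_le_mul_left h6 (by positivity)

end Pool.Agent.TH388.EQ
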